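import Pool.Agent.K1H61.LC.Final

/-!
# MP_70d14f_gt: exact Maslov-0 Lagrangian cobordisms need not have minimal genus

There are oriented Legendrian knots `Λ₀`, `Λ₁` in the standard contact `ℝ³`, which are smoothly
isotopic as oriented knots (so that the minimal genus of a smooth cobordism between them is zero),
and an exact Lagrangian cobordism of Maslov class zero and of positive genus from `Λ₀` to `Λ₁`.

Both knots are (stabilised) Legendrian unknots. The fronts of the slices of the cobordism have four
sheets; going down from `Λ₁`, two pinches open two pairs of cusps, so that the surface has genus one.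
-/

set_option autoImplicit false

open Pool.Agent.K1H61.LC

namespace Pool.Agent.Results.MP_70d14f_gt.GenusNotMinimal

theorem result : ∃ (Λ₀ Λ₁ : Set E3) (τ₀ τ₁ : E3 → E3) (L : Set E4) (T : ℝ) (f φ : E4 → ℝ),
    IsLegendrianKnot Λ₀ τ₀ ∧ IsLegendrianKnot Λ₁ τ₁ ∧ IsCobordism L Λ₀ τ₀ Λ₁ τ₁ T f φ ∧
    HasPositiveGenus L ∧ ∃ H : ℝ → E3 → E3, IsIsotopy Λ₁ τ₁ Λ₀ τ₀ H T :=
  main_thm

end Pool.Agent.Results.MP_70d14f_gt.GenusNotMinimal
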